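import Pool.Agent.H41.AV.Defs

/-!
# AV-MGF: the moment generating function of Lipschitz functions of random permutations
-/

set_option autoImplicit false

namespace Pool.Agent.H356.AV

open Equiv Finset
open scoped Nat
open Pool.Agent.H41.AV

theorem mgf_base (N : ℕ) (hN : 0 < N) (g : Fin N → ℝ) (m lam L : ℝ) (hm : ∑ a, g a = N * m)
    (hg : ∀ a b, |g a - g b| ≤ L) :
    ∑ a, Real.exp (lam * (g a - m)) ≤ N * Real.exp (lam ^ 2 * L ^ 2 / 2) := by
  have hN0 : (0 : ℝ) < N := by exact_mod_cast hN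
  have h1 : N * Real.exp (-(lam * m)) ≤ ∑ b, Real.exp (-(lam * g b)) := by
    have h2 : ∀ b, (1 + lam * (m - g b)) * Real.exp (-(lam * m)) ≤ Real.exp (-(lam * g b)) := by
      intro b
      have e : -(lam * g b) = lam * (m - g b) + -(lam * m) := by ring
      rw [e, Real.exp_add]
      refine mul_le_mul_of_nonneg_right ?_ (Real.exp_pos _).le
      have := Real.add_one_le_exp (lam * (m - g b))
      linarith
    refine le_trans (le_of_eq ?_) (Finset.sum_le_sum (fun b _ => h2 b))
    rw [← Finset.sum_mul]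
    congr 1
    rw [Finset.sum_add_distrib, ← Finset.mul_sum, Finset.sum_sub_distrib, hm]
    simp
  have h3 : N * ∑ a, Real.exp (lam * (g a - m)) ≤
      ∑ a, ∑ b, Real.exp (lam * (g a - g b)) := by
    rw [Finset.mul_sum]
    refine Finset.sum_le_sum (fun a _ => ?_)
    have e1 : (N : ℝ) * Real.exp (lam * (g a - m))
        = Real.exp (lam * g a) * (N * Real.exp (-(lam * m))) := by
      have : lam * (g a - m) = lam * g a + -(lam * m) := by ring
      rw [this, Real.exp_add]
      ring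
    rw [e1]
    refine (mul_le_mul_of_nonneg_left h1 (Real.exp_pos _).le).trans (le_of_eq ?_)
    rw [Finset.mul_sum]
    refine Finset.sum_congr rfl (fun b _ => ?_)
    rw [← Real.exp_add]
    congr 1
    ring
  have h4 : 2 * (∑ a, ∑ b, Real.exp (lam * (g a - g b))) ≤
      2 * (N * (N * Real.exp (lam ^ 2 * L ^ 2 / 2))) := by
    have e1 : ∑ a, ∑ b, Real.exp (lam * (g a - g b))
        = ∑ a, ∑ b, Real.exp (-(lam * (g a - g b))) := by
      rw [Finset.sum_comm]
      refine Finset.sum_congr rfl (fun a _ => Finset.sum_congr rfl (fun b _ => ?_))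
      congr 1
      ring
    have e2 : 2 * (∑ a, ∑ b, Real.exp (lam * (g a - g b)))
        = ∑ a, ∑ b, 2 * Real.cosh (lam * (g a - g b)) := by
      rw [two_mul]
      nth_rewrite 2 [e1]
      rw [← Finset.sum_add_distrib]
      refine Finset.sum_congr rfl (fun a _ => ?_)
      rw [← Finset.sum_add_distrib]
      refine Finset.sum_congr rfl (fun b _ => ?_)
      rw [Real.cosh_eq]
      ring
    rw [e2]
    have h5 : ∀ a b, 2 * Real.cosh (lam * (g a - g b)) ≤ 2 * Real.exp (lam ^ 2 * L ^ 2 / 2) := by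
      intro a b
      have h6 := Real.cosh_le_exp_half_sq (lam * (g a - g b))
      have h7 : (lam * (g a - g b)) ^ 2 ≤ lam ^ 2 * L ^ 2 := by
        rw [mul_pow]
        refine mul_le_mul_of_nonneg_left ?_ (sq_nonneg _)
        rw [← sq_abs (g a - g b)]
        exact pow_le_pow_left₀ (abs_nonneg _) (hg a b) 2
      have h8 : Real.exp ((lam * (g a - g b)) ^ 2 / 2) ≤ Real.exp (lam ^ 2 * L ^ 2 / 2) :=
        Real.exp_le_exp.2 (by linarith)
      linarith
    refine (Finset.sum_le_sum (fun a _ => Finset.sum_le_sum (fun b _ => h5 a b))).trans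
      (le_of_eq ?_)
    simp only [Finset.sum_const, Finset.card_univ, Fintype.card_fin, nsmul_eq_mul]
    ring
  have h9 : N * ∑ a, Real.exp (lam * (g a - m)) ≤ N * (N * Real.exp (lam ^ 2 * L ^ 2 / 2)) := by
    linarith
  exact le_of_mul_le_mul_left h9 hN0

theorem dec_swap {n : ℕ} (a : Fin (n + 1)) (σ : Perm (Fin n)) (i j : Fin n) :
    Perm.decomposeFin.symm (a, σ * swap i j)
      = Perm.decomposeFin.symm (a, σ) * swap i.succ j.succ := by
  refine Equiv.ext (fun x => ?_)
  refine Fin.cases ?_ (fun y => ?_) x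
  · rw [Perm.decomposeFin_symm_apply_zero, Perm.mul_apply,
      swap_apply_of_ne_of_ne (Fin.succ_ne_zero i).symm (Fin.succ_ne_zero j).symm,
      Perm.decomposeFin_symm_apply_zero]
  · rw [Perm.decomposeFin_symm_apply_succ, Perm.mul_apply, Perm.mul_apply,
      (Fin.succ_injective n).swap_apply, Perm.decomposeFin_symm_apply_succ]

theorem dec_fst {n : ℕ} (ρ : Perm (Fin (n + 1))) : (Perm.decomposeFin ρ).1 = ρ 0 := by
  have h := Perm.decomposeFin_symm_apply_zero (Perm.decomposeFin ρ).1 (Perm.decomposeFin ρ).2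
  rw [Prod.mk.eta, Equiv.symm_apply_apply] at h
  exact h.symm

theorem diff_le {n : ℕ} (f : Perm (Fin (n + 1)) → ℝ) (L : ℝ)
    (hf : ∀ ρ a b, |f (ρ * swap a b) - f ρ| ≤ L) (a b : Fin (n + 1)) :
    ∑ σ : Perm (Fin n), f (Perm.decomposeFin.symm (b, σ))
      - ∑ σ : Perm (Fin n), f (Perm.decomposeFin.symm (a, σ)) ≤ (n ! : ℝ) * L := by
  let ph : Perm (Fin n) → Perm (Fin n) := fun σ =>
    (Perm.decomposeFin (swap a b * Perm.decomposeFin.symm (a, σ))).2
  have hph : ∀ σ, Perm.decomposeFin.symm (b, ph σ) = swap a b * Perm.decomposeFin.symm (a, σ) := by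
    intro σ
    have h1 : (Perm.decomposeFin (swap a b * Perm.decomposeFin.symm (a, σ))).1 = b := by
      rw [dec_fst, Perm.mul_apply, Perm.decomposeFin_symm_apply_zero, swap_apply_left]
    have h2 : ((b, ph σ) : Fin (n + 1) × Perm (Fin n))
        = Perm.decomposeFin (swap a b * Perm.decomposeFin.symm (a, σ)) :=
      Prod.ext h1.symm rfl
    rw [h2, Equiv.symm_apply_apply]
  have hinj : Function.Injective ph := by
    intro σ σ' h
    have h1 := hph σ
    rw [h, hph σ'] at h1
    have h2 := mul_left_cancel h1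
    have h3 := Perm.decomposeFin.symm.injective h2
    exact (Prod.ext_iff.1 h3).2.symm
  have hbij : Function.Bijective ph := Finite.injective_iff_bijective.1 hinj
  have e : ∑ σ : Perm (Fin n), f (Perm.decomposeFin.symm (b, σ))
      = ∑ σ : Perm (Fin n), f (Perm.decomposeFin.symm (b, ph σ)) :=
    (Equiv.sum_comp (Equiv.ofBijective ph hbij)
      (fun σ => f (Perm.decomposeFin.symm (b, σ)))).symm
  rw [e, ← Finset.sum_sub_distrib]
  have h1 : ∀ σ : Perm (Fin n), f (Perm.decomposeFin.symm (b, ph σ))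
      - f (Perm.decomposeFin.symm (a, σ)) ≤ L := by
    intro σ
    rw [hph σ, swap_mul_eq_mul_swap]
    exact (le_abs_self _).trans (hf _ _ _)
  refine (Finset.sum_le_sum (fun σ _ => h1 σ)).trans (le_of_eq ?_)
  rw [Finset.sum_const, Finset.card_univ, Fintype.card_perm, Fintype.card_fin, nsmul_eq_mul]

theorem mgf : S_MGF := by
  intro n
  induction n with
  | zero =>
    intro f L lam _ _
    have e : ∀ ρ : Perm (Fin 0), lam * (f ρ - (∑ σ, f σ) / ((0 : ℕ) ! : ℝ)) = 0 := by
      intro ρ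
      have : ∑ σ, f σ = f ρ := Fintype.sum_subsingleton f ρ
      rw [this]
      simp
    rw [Finset.sum_congr rfl (fun ρ _ => by rw [e ρ])]
    simp
  | succ n ih =>
    intro f L lam hL hf
    let F : Fin (n + 1) → Perm (Fin n) → ℝ := fun a σ => f (Perm.decomposeFin.symm (a, σ))
    let g : Fin (n + 1) → ℝ := fun a => (∑ σ, F a σ) / (n ! : ℝ)
    have hn0 : (0 : ℝ) < (n ! : ℝ) := by exact_mod_cast Nat.factorial_pos n
    have hN0 : (0 : ℝ) < ((n + 1 : ℕ) : ℝ) := by positivity
    have hsum : ∑ ρ, f ρ = ∑ a, ∑ σ, F a σ := by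
      rw [← Equiv.sum_comp Perm.decomposeFin.symm f, Fintype.sum_prod_type]
    have hfac : (((n + 1) ! : ℕ) : ℝ) = ((n + 1 : ℕ) : ℝ) * (n ! : ℝ) := by
      rw [Nat.factorial_succ]
      push_cast
      ring
    obtain ⟨m, hm⟩ : ∃ m, m = (∑ σ, f σ) / (((n + 1) ! : ℕ) : ℝ) := ⟨_, rfl⟩
    have hgm : ∑ a, g a = ((n + 1 : ℕ) : ℝ) * m := by
      rw [hm, hsum, hfac, ← Finset.sum_div]
      field_simp
    have hgL : ∀ a b, |g a - g b| ≤ L := by
      intro a b
      have h1 := diff_le f L hf a b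
      have h2 := diff_le f L hf b a
      have e : g a - g b = (∑ σ, F a σ - ∑ σ, F b σ) / (n ! : ℝ) := by
        change (∑ σ, F a σ) / (n ! : ℝ) - (∑ σ, F b σ) / (n ! : ℝ) = _
        ring
      rw [e, abs_le]
      constructor
      · rw [le_div_iff₀ hn0]
        change ∑ σ, F b σ - ∑ σ, F a σ ≤ (n ! : ℝ) * L at h1
        linarith
      · rw [div_le_iff₀ hn0]
        change ∑ σ, F a σ - ∑ σ, F b σ ≤ (n ! : ℝ) * L at h2
        linarith
    rw [← hm]
    have e1 : ∑ ρ, Real.exp (lam * (f ρ - m))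
        = ∑ a, Real.exp (lam * (g a - m)) * ∑ σ, Real.exp (lam * (F a σ - g a)) := by
      rw [← Equiv.sum_comp Perm.decomposeFin.symm (fun ρ => Real.exp (lam * (f ρ - m))),
        Fintype.sum_prod_type]
      refine Finset.sum_congr rfl (fun a _ => ?_)
      rw [Finset.mul_sum]
      refine Finset.sum_congr rfl (fun σ _ => ?_)
      rw [← Real.exp_add]
      congr 1
      change lam * (F a σ - m) = _
      ring
    have h3 : ∀ a, ∑ σ, Real.exp (lam * (F a σ - g a)) ≤
        (n ! : ℝ) * Real.exp (n * lam ^ 2 * L ^ 2 / 2) := by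
      intro a
      refine ih (F a) L lam hL (fun σ i j => ?_)
      change |f (Perm.decomposeFin.symm (a, σ * swap i j)) - f (Perm.decomposeFin.symm (a, σ))| ≤ L
      rw [dec_swap]
      exact hf _ _ _
    have h4 := mgf_base (n + 1) (Nat.succ_pos n) g m lam L hgm hgL
    rw [e1]
    calc ∑ a, Real.exp (lam * (g a - m)) * ∑ σ, Real.exp (lam * (F a σ - g a))
        ≤ ∑ a, Real.exp (lam * (g a - m)) * ((n ! : ℝ) * Real.exp (n * lam ^ 2 * L ^ 2 / 2)) :=
          Finset.sum_le_sum (fun a _ => mul_le_mul_of_nonneg_left (h3 a) (Real.exp_pos _).le)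
      _ = (∑ a, Real.exp (lam * (g a - m))) * ((n ! : ℝ) * Real.exp (n * lam ^ 2 * L ^ 2 / 2)) := by
          rw [Finset.sum_mul]
      _ ≤ (((n + 1 : ℕ) : ℝ) * Real.exp (lam ^ 2 * L ^ 2 / 2)) *
          ((n ! : ℝ) * Real.exp (n * lam ^ 2 * L ^ 2 / 2)) :=
          mul_le_mul_of_nonneg_right h4 (by positivity)
      _ = (((n + 1) ! : ℕ) : ℝ) * Real.exp (((n + 1 : ℕ) : ℝ) * lam ^ 2 * L ^ 2 / 2) := by
          rw [hfac]
          have e2 : ((n + 1 : ℕ) : ℝ) * lam ^ 2 * L ^ 2 / 2
              = lam ^ 2 * L ^ 2 / 2 + n * lam ^ 2 * L ^ 2 / 2 := by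
            push_cast
            ring
          rw [e2, Real.exp_add]
          ring

end Pool.Agent.H356.AV
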